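import Pool.Agent.V5helper45.NM.Base
import Pool.Agent.V5helper45.NM.Dens

/-!
# Leopoldt's conjecture for many primes at once in explicit families of every degree

Let `P_1, ..., P_r` (`r ≥ 1`) be distinct monic polynomials with integral coefficients, each of them
linear or quadratic without real roots (`Family`); `n = 1 + ∑ deg P_i`,
`f_t = (X - t) P_1 ⋯ P_r - 1`, `K_t` the field generated by a root of `f_t`, `F_t` the splitting field of
`f_t`, `t` an integer.  Call `t` regular if `f_t` is irreducible over `ℚ` and `K_t` has exactly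
`1 + #{linear P_i}` real and `#{quadratic P_i}` complex places.  `Holds P t p`: Leopoldt's conjecture for
the prime `p` is true for `K_t` and, if `n ≤ 4` (for `n = 4` and a totally real `F_t` of degree 24
excepted), also for `F_t`.  `Good P S B t`: `t` is regular and `Holds P t p` for all primes `p ≤ B` of
the set `S`.

(0) All but finitely many integers `t` are regular.

(1) Let `p ≥ max(5, 2n)` be a prime number modulo which the `P_i` are pairwise coprime.  Every
residue class modulo `p` contains at most `r` regular integers `t` (of any size) without `Holds P t p`.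

(2) There is `M` such that for EVERY finite set `S` of primes there are at most `M + r ∑_{p ∈ S} p`
pairs `(t, p)`, `t` a regular integer of any size, `p ∈ S`, without `Holds P t p`, and all integers `t` but at
most `M + r ∑_{p ∈ S} p` are good for all primes in `S`.

(3) If `g(n) = o(√(n log n))` then for 100% of the integers `t` Leopoldt's conjecture holds for all
primes `p ≤ g(|t|)`; in particular for all `p ≤ √|t|`.

For (4), (5), (6) let `S` be a set of primes with `#{p ∈ S : p ≤ Y} ≤ C Y ^ δ` (all primes: `δ = 1`),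
`θ > 0`, `s = θ (1 + δ)`.  The exceptional sets do not depend on the family: they are the same for all
`P_1, ..., P_r`, of all degrees.

(4) For every map `φ` from `ℤ` to a metric space and `τ > 0`: outside a set of points `ξ` of Hausdorff
dimension at most `s / τ` all but finitely many `t` with `dist (φ t) ξ ≤ A |t| ^ (-τ)` are good up to
`|t| ^ θ`.

(5) For all `ℓ`-adic integers `ξ` outside a set of dimension `≤ s` all but finitely many of the
truncations `t` of the `ℓ`-adic expansion of `ξ` (`t ≡ ξ mod ℓ ^ N`, `0 ≤ t < ℓ ^ N`) are good up to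
`|t| ^ θ`.

(6) Let `v_N ≥ 1` have exponent of convergence `≤ τ`, `κ < 1`.  For all `α > 0` outside a set of dimension
at most `(s + τ) / (1 - κ)` and all large `N` ALL the integers `t` with `| |t| - α v_N | ≤ v_N ^ κ` are good
up to `|t| ^ θ`.  (For `v_N = b ^ N`, `S` all primes: dimension at most `2 θ / (1 - κ)`.)

Proof of (1).  Put `t = t₀ + p y`.  Multiplication by the root is the matrix `C₀ + p y C₁`.  Let `l_i`
be the logarithm of `P_i ^ (Q p)` in `ℤ_p[X]/(f_t)` and `Λ_i` its matrix, with a `Q` prime to `p`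
for which the `Q`-th powers of the invertible matrices over `𝔽_p` are unipotent.  The entries of
`Λ_i / p` are constant modulo `p`, and `tr(C ^ a Λ_i) / p²` is modulo `p` a polynomial in `y` of degree
at most `1` (formal derivative of a trace); its slope and the constant are, taken together,
independent for `i = 1, ..., r` (partial fractions of the logarithmic derivative of the `P_i`).  Hence
some determinant of the logarithms, multiplied by a suitable matrix, is a polynomial in `y` up to high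
powers of `p`, whose reduction modulo `p` is a characteristic polynomial and so monic of degree
`r`; thus it has at most `r` zeros (Strassmann).  The small primes in (2) are treated with the starting
theorem on explicit families; (3) uses Chebyshev's bound; (4), (5), (6) follow from (2) by general
theorems on thin sets of integers; the Galois closures are due to helper65 (`GaloisClosures`).
-/

set_option autoImplicit false

namespace Pool.Agent.Results.MP_5f2860_nt.AllPrimesAtOnce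

open Polynomial NumberField IntermediateField Module Filter Topology Asymptotics
open Pool.Agent.W254.LF (LeopoldtAt)
open Pool.Agent.Y854.GM (ExpLe)

/-- The families: `r ≥ 1` distinct monic integral polynomials, each linear or quadratic without real
roots. -/
def Family {r : ℕ} (P : Fin r → ℤ[X]) : Prop :=
  0 < r ∧ (∀ i, (P i).Monic) ∧ Function.Injective P ∧ ∀ i, (P i).natDegree = 1 ∨
    ((P i).natDegree = 2 ∧ ∀ x : ℝ, ((P i).map (Int.castRingHom ℝ)).eval x ≠ 0)

/-- `t` is regular: `(X - t) P_1 ⋯ P_r - 1` is irreducible over `ℚ` and the fields generated by its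
roots have `1 + #{linear P_i}` real and `#{quadratic P_i}` complex places. -/
def Regular {r : ℕ} (P : Fin r → ℤ[X]) (t : ℤ) : Prop :=
  Irreducible (((X - C t) * ∏ i, P i - 1 : ℤ[X]).map (Int.castRingHom ℚ)) ∧
    ∀ (K : Type) [Field K] [NumberField K] (θ : K),
      aeval θ ((X - C t) * ∏ i, P i - 1 : ℤ[X]) = 0 → ℚ⟮θ⟯ = ⊤ →
      InfinitePlace.nrRealPlaces K = 1 + (Finset.univ.filter fun i => (P i).natDegree = 1).card ∧
      InfinitePlace.nrComplexPlaces K = (Finset.univ.filter fun i => (P i).natDegree = 2).card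

/-- If `p` is a prime number then Leopoldt's conjecture for `p` holds for all number fields generated
by a root of `f_t = (X - t) P_1 ⋯ P_r - 1` and, if the degree of `f_t` is at most four, for its splitting
fields `F`, unless `[F : ℚ] = 24` and all `P_i` are linear. -/
def Holds {r : ℕ} (P : Fin r → ℤ[X]) (t : ℤ) (p : ℕ) : Prop :=
  ∀ (_ : Fact p.Prime),
    (∀ (K : Type) [Field K] [NumberField K] (θ : K),
      aeval θ ((X - C t) * ∏ i, P i - 1 : ℤ[X]) = 0 → ℚ⟮θ⟯ = ⊤ → LeopoldtAt K p) ∧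
    (1 + ∑ i, (P i).natDegree ≤ 4 → ∀ (F : Type) [Field F] [NumberField F],
      (((X - C t) * ∏ i, P i - 1 : ℤ[X]).map (Int.castRingHom ℚ)).IsSplittingField ℚ F →
      (finrank ℚ F = 24 → ∃ i, (P i).natDegree = 2) → LeopoldtAt F p)

/-- `t` is regular and satisfies Leopoldt's conjecture for all primes `p ∈ S` with `p ≤ B`. -/
def Good {r : ℕ} (P : Fin r → ℤ[X]) (S : Set ℕ) (B : ℝ) (t : ℤ) : Prop :=
  Regular P t ∧ ∀ p ∈ S, (p : ℝ) ≤ B → Holds P t p

/-- The number of the primes `p ≤ Y` in `S` is at most `C Y ^ δ`. -/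
def Thin (S : Set ℕ) (δ : ℝ) : Prop :=
  ∃ C : ℝ, ∀ Y : ℕ, (({p : ℕ | p ∈ S ∧ p.Prime ∧ p ≤ Y}.ncard : ℕ) : ℝ) ≤ C * (Y : ℝ) ^ δ

theorem holds_of {r : ℕ} {P : Fin r → ℤ[X]} (hP : Family P) {t : ℤ} (ht : Regular P t) {p : ℕ}
    (hf : ¬ Pool.Agent.V5helper45.LS.Fails P t p) : Holds P t p := by
  intro hp
  refine ⟨fun K _ _ θ hθ hK => ?_, fun h4 F _ _ hF h24 => ?_⟩
  · by_contra hcon
    exact hf ⟨hp, K, _, _, θ, hθ, hK, hcon⟩
  · exact Pool.Agent.V5helper45.NM.closure_holds P hP.2.1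
      (fun i => (hP.2.2.2 i).imp id fun h => h.1) hP.1 ht (p := p) hf h4 F hF h24

theorem finset_good {r : ℕ} (P : Fin r → ℤ[X]) (hP : Family P) :
    ∃ M : ℕ, ∀ S : Finset ℕ,
      {x : ℤ × ℕ | Regular P x.1 ∧ x.2 ∈ S ∧ ¬ Holds P x.1 x.2}.encard ≤
        ((M + r * ∑ p ∈ S, p : ℕ) : ℕ∞) ∧
      {t : ℤ | ¬ (Regular P t ∧ ∀ p ∈ S, Holds P t p)}.encard ≤
        ((M + r * ∑ p ∈ S, p : ℕ) : ℕ∞) := by
  obtain ⟨M, hM⟩ := Pool.Agent.V5helper45.NM.finset_primes P hP.2.1 hP.2.2.1 hP.2.2.2 hP.1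
  refine ⟨M, fun S => ⟨le_trans (Set.encard_le_encard ?_) (hM S).1,
    le_trans (Set.encard_le_encard ?_) (hM S).2⟩⟩
  · rintro x ⟨h1, h2, h3⟩
    exact ⟨h1, h2, not_imp_comm.1 (holds_of hP h1) h3⟩
  · intro t ht hcon
    exact ht ⟨hcon.1, fun p hp => holds_of hP hcon.1 (hcon.2 p hp)⟩

lemma holds_np {r : ℕ} (P : Fin r → ℤ[X]) (t : ℤ) (p : ℕ) (hp : ¬ p.Prime) : Holds P t p :=
  fun h => absurd h.out hp

/-- the index set of all families -/
abbrev Idx : Type := {x : Σ r : ℕ, (Fin r → ℤ[X]) // Family x.2}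

instance : Countable Idx := by
  have : Countable ℤ[X] := by
    rw [← Cardinal.mk_le_aleph0_iff]
    exact Polynomial.cardinalMk_le_max.trans (max_le Cardinal.mk_le_aleph0 le_rfl)
  infer_instance

theorem cnt (S : Set ℕ) {δ θ : ℝ} (hδ : 0 ≤ δ) (hS : Thin S δ) (hθ : 0 < θ) (i : Idx) :
    Pool.Agent.V5helper45.NM.Cnt (fun t => ¬ Good i.1.2 S (|(t : ℝ)| ^ θ) t) (θ * (1 + δ)) := by
  obtain ⟨M, hM⟩ := finset_good i.1.2 i.2
  exact Pool.Agent.V5helper45.NM.cnt_bad (R := Regular i.1.2) (L := Holds i.1.2)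
    (holds_np i.1.2) (fun S => (hM S).2) hδ hS hθ

/-- **Main result.** -/
theorem result :
    (∀ (r : ℕ) (P : Fin r → ℤ[X]), Family P →
      -- (0)
      {t : ℤ | ¬ Regular P t}.Finite ∧
      -- (1) residue classes
      (∀ p : ℕ, p.Prime → 5 ≤ p → 2 * (1 + ∑ i, (P i).natDegree) ≤ p →
        (∀ i j, i ≠ j → IsCoprime ((P i).map (Int.castRingHom (ZMod p)))
          ((P j).map (Int.castRingHom (ZMod p)))) →
        ∀ a : ℤ, {t : ℤ | Regular P t ∧ t ≡ a [ZMOD p] ∧ ¬ Holds P t p}.encard ≤ r) ∧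
      -- (2) arbitrary finite sets of primes
      (∃ M : ℕ, ∀ S : Finset ℕ,
        {x : ℤ × ℕ | Regular P x.1 ∧ x.2 ∈ S ∧ ¬ Holds P x.1 x.2}.encard ≤
          ((M + r * ∑ p ∈ S, p : ℕ) : ℕ∞) ∧
        {t : ℤ | ¬ (Regular P t ∧ ∀ p ∈ S, Holds P t p)}.encard ≤
          ((M + r * ∑ p ∈ S, p : ℕ) : ℕ∞)) ∧
      -- (3) all primes up to `o(√(|t| log |t|))`, for almost all `t`
      (∀ g : ℕ → ℝ, g =o[atTop] (fun n : ℕ => √((n : ℝ) * Real.log n)) →
        Tendsto (fun N : ℕ => (({t : ℤ | |(t : ℝ)| ≤ N ∧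
          ¬ Good P Set.univ (g t.natAbs) t}.ncard : ℕ) : ℝ) / N) atTop (𝓝 0))) ∧
    ∀ (S : Set ℕ) (δ θ : ℝ), 0 ≤ δ → Thin S δ → 0 < θ →
      -- (4) near a point
      (∀ (X : Type) [MetricSpace X] (φ : ℤ → X) (τ : ℝ), 0 < τ → ∃ E : Set X,
        dimH E ≤ ENNReal.ofReal (θ * (1 + δ) / τ) ∧ ∀ ξ : X, ξ ∉ E →
          ∀ (r : ℕ) (P : Fin r → ℤ[X]), Family P → ∀ A : ℝ,
            {t : ℤ | dist (φ t) ξ ≤ A * |(t : ℝ)| ^ (-τ) ∧
              ¬ Good P S (|(t : ℝ)| ^ θ) t}.Finite) ∧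
      -- (5) the truncations of `ℓ`-adic expansions
      (∀ (ℓ : ℕ) [Fact ℓ.Prime], ∃ E : Set ℤ_[ℓ], dimH E ≤ ENNReal.ofReal (θ * (1 + δ)) ∧
        ∀ ξ : ℤ_[ℓ], ξ ∉ E → ∀ (r : ℕ) (P : Fin r → ℤ[X]), Family P →
          ∃ N₀ : ℕ, ∀ N : ℕ, N₀ ≤ N → Good P S ((ξ.appr N : ℝ) ^ θ) (ξ.appr N : ℤ)) ∧
      -- (6) windows around the members of a sequence
      (∀ (v : ℕ → ℝ) (τ κ : ℝ), (∀ N, 1 ≤ v N) → 0 ≤ τ → ExpLe v τ → κ < 1 → ∃ E : Set ℝ,
        dimH E ≤ ENNReal.ofReal ((θ * (1 + δ) + τ) / (1 - κ)) ∧ ∀ α : ℝ, 0 < α → α ∉ E →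
          ∀ (r : ℕ) (P : Fin r → ℤ[X]), Family P → ∃ N₀ : ℕ, ∀ N : ℕ, N₀ ≤ N → ∀ t : ℤ,
            |(|(t : ℝ)| - α * v N)| ≤ v N ^ κ → Good P S (|(t : ℝ)| ^ θ) t) := by
  refine ⟨fun r P hP => ⟨?_, ?_, finset_good P hP, fun g hg => ?_⟩, fun S δ θ hδ hS hθ => ?_⟩
  · exact Pool.Agent.V5helper45.LS.regular_finite P hP.2.1 hP.2.2.1 hP.2.2.2
  · intro p hp hp5 hpn hcop a
    refine le_trans (Set.encard_le_encard ?_)
      (Pool.Agent.V5helper45.LS.class_le P hP.2.1 (fun i => (hP.2.2.2 i).imp id (fun h => h.1))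
        hP.1 p hp hp5 hpn hcop a)
    rintro t ⟨h1, h2, h3⟩
    exact ⟨h1, h2, not_imp_comm.1 (holds_of hP h1) h3⟩
  · obtain ⟨M, hM⟩ := finset_good P hP
    have h := Pool.Agent.V5helper45.NM.dens (R := Regular P) (L := Holds P) (holds_np P)
      (fun S => (hM S).2) g hg
    simpa only [Good, Set.mem_univ, forall_true_left] using h
  · have hs : 0 ≤ θ * (1 + δ) := by positivity
    have hc := cnt S hδ hS hθ
    refine ⟨fun X _ φ τ hτ => ?_, fun ℓ _ => ?_, fun v τ κ hv hτ hvE hκ => ?_⟩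
    · obtain ⟨E, hE, h⟩ := Pool.Agent.V5helper45.NM.near_fam hs hc hτ φ
      exact ⟨E, hE, fun ξ hξ r P hP A => h ξ hξ ⟨⟨r, P⟩, hP⟩ A⟩
    · obtain ⟨E, hE, h⟩ := Pool.Agent.V5helper45.NM.digits_fam hs hc ℓ
      refine ⟨E, hE, fun ξ hξ r P hP => ?_⟩
      obtain ⟨N₀, hN⟩ := h ξ hξ ⟨⟨r, P⟩, hP⟩
      refine ⟨N₀, fun N hN1 => ?_⟩
      have h1 := not_not.1 (hN N hN1)
      simpa using h1
    · obtain ⟨E, hE, h⟩ := Pool.Agent.V5helper45.NM.win_fam hs hc hv hτ hvE hκ
      refine ⟨E, hE, fun α hα hαE r P hP => ?_⟩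
      obtain ⟨N₀, hN⟩ := h α hα hαE ⟨⟨r, P⟩, hP⟩
      exact ⟨N₀, fun N hN1 t ht => not_not.1 (hN N hN1 t ht)⟩

end Pool.Agent.Results.MP_5f2860_nt.AllPrimesAtOnce
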