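import Pool.Agent.V5helper64.LC.Leo
import Pool.Agent.R482.ST.Vec
import Pool.Agent.Results.MP_5f2860_nt.AlmostAllMembers

/-!
# The exceptions to Leopoldt's conjecture in the families with `r₁ + 2 r₂` parameters have codimension one

For integers `a_1, …, a_{r₁}`, `b_1, c_1, …, b_{r₂}, c_{r₂}`, `c_k > 0`, let `K = ℚ[Y]/(f)`,

  `f = ∏ (Y - a_i) ∏ ((Y - b_k)² + c_k) - 1`,

a polynomial of degree `n = r₁ + 2 r₂` with `n` free parameters `x = (a, b, c)`. The starting result `AlmostAllMembers` says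
that for each prime `p` the proportion of the `x` in the box `|x_i| ≤ N` for which `f` is irreducible, `K` has `r₁` real and
`r₂` complex places and Leopoldt's conjecture holds for `K` and `p` (`Good p x`) tends to one, without a rate.

**Theorem.** (1) There is a constant `C = C(p, r₁, r₂)` such that for ALL boxes `∏ (w_i, w_i + N_i]`, `w ∈ ℤ^n`, with sides
`N_i ≥ M ≥ 1`, the number of the `x` in the box (`c_k > 0`) which are not good is at most `C N_1 ⋯ N_n / M`; so at most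
`C N ^ (n - 1)` of the `N ^ n` members in any cube of side `N`, wherever it lies, are not good. (The exponent `n - 1` is the true
one for the property `Good` if `r₁ ≥ 2`: for instance `(Y - a)² - 1` is reducible.)

(2) Let `f_m`, `m = 0, 1, 2, …`, be positive functions on `(a, ∞)`, `a ≥ 0`, such that `f_m(t) / t` is nondecreasing, the
sequence `f_m(t)` having exponent of convergence at most `τ` for each `t > a` (for instance `f_m(t) = v_m t`, `t ^ (v_m)`, or the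
iterates of a map). For almost all vectors `u ∈ ℝ^n`, `|u| > a`, for all `θ < (1 - τ) / n`, `c` and ALL primes `p`, for all large
`m`, ALL integral vectors `x`, `c_k > 0`, at a distance at most `c r ^ θ` from `(r / |u|) u`, `r = f_m(|u|)`, are good. The
exceptional vectors for a given `θ < 1` have Hausdorff dimension at most `(n - 1 + τ) / (1 - θ)`.

Proof. By the starting library (`Pool.Agent.N924.LP`) the exceptions in a class modulo `p ^ 2` whose parameters are far apart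
are zeros of a power series `h ≠ 0` in `n` variables over `ℤ_p` (evaluated at `p y`). We show that a power series `h ≠ 0`
has at most `C N_1 ⋯ N_n / M` zeros in a box with sides `N_i ≥ M` (`Pool.Agent.V5helper64.LC.Zer`), by induction on the number of
variables for the following statement: at most `C N_1 ⋯ N_n (1 / (k + 1) ^ A + 1 / M)` points of the box satisfy
`p ^ k ∣ h(p y)`. If `a_m(y')` is a coefficient of `h` as a power series in the first variable, exactly divisible by `p ^ e`, then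
the `t` with `p ^ k ∣ h(p t, p y')` are in at most `m + e` classes modulo `p ^ E`, if `k ≥ (e + 1) + (m + e + 1) E`; the sum of
the exponents `e` over the `y'` in a box is bounded by the induction hypothesis.
-/

set_option autoImplicit false

namespace Pool.Agent.Results.MP_5f2860_nt.ExceptionsInBoxes

open MeasureTheory
open Pool.Agent.Results.MP_5f2860_nt.AlmostAllMembers (Ind Good poly good_iff)

/-- the integral points of the box `∏ (w_i, w_i + N_i]` -/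
def Box {r₁ r₂ : ℕ} (w : Ind r₁ r₂ → ℤ) (N : Ind r₁ r₂ → ℕ) : Set (Ind r₁ r₂ → ℤ) :=
  {x | ∀ i, w i < x i ∧ x i ≤ w i + N i}

/-- the parameters `c_k` are positive -/
def Positive {r₁ r₂ : ℕ} (x : Ind r₁ r₂ → ℤ) : Prop := ∀ k, 0 < x (Sum.inr (Sum.inr k))

/-- the functions `f m` are positive on `(a, ∞)`, `a ≥ 0`, and `f m x / x` is nondecreasing there -/
def Starshaped (a : ℝ) (f : ℕ → ℝ → ℝ) : Prop :=
  0 ≤ a ∧ ∀ m : ℕ, ∀ x y : ℝ, a < x → x ≤ y → 0 < f m x ∧ f m x / x ≤ f m y / y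

/-- for each `x > a` the exponent of convergence of the sequence `f m x` is at most `τ` -/
def ExpLe (a : ℝ) (f : ℕ → ℝ → ℝ) (τ : ℝ) : Prop :=
  ∀ x : ℝ, a < x → ∀ t : ℝ, τ < t → Summable (fun m : ℕ => (f m x) ^ (-t))

/-- for every prime `p`, for all large `m`, all `z` with positive `c_k` at a distance (in the maximum norm) at most `c r ^ θ`
from `(r / ‖u‖) u`, `r = f_m(‖u‖)`, are good -/
def AllGood {r₁ r₂ : ℕ} (f : ℕ → ℝ → ℝ) (u : Ind r₁ r₂ → ℝ) (θ c : ℝ) : Prop :=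
  ∀ (p : ℕ) [Fact p.Prime], ∃ m₀ : ℕ, ∀ m : ℕ, m₀ ≤ m → ∀ z : Ind r₁ r₂ → ℤ, Positive z →
    (∀ i, |(z i : ℝ) - f m ‖u‖ / ‖u‖ * u i| ≤ c * (f m ‖u‖) ^ θ) → Good p z

/-- the first part, for finite sets -/
theorem boxes (p : ℕ) [Fact p.Prime] {r₁ r₂ : ℕ} (hr : 1 ≤ r₁ + r₂) : ∃ C : ℝ, 0 ≤ C ∧
    ∀ (w : Ind r₁ r₂ → ℤ) (N : Ind r₁ r₂ → ℕ) (M : ℕ), 1 ≤ M → (∀ i, M ≤ N i) →
      {x | x ∈ Box w N ∧ Positive x ∧ ¬ Good p x}.Finite ∧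
      ({x | x ∈ Box w N ∧ Positive x ∧ ¬ Good p x}.ncard : ℝ) ≤ C * ((∏ i, (N i : ℝ)) / M) := by
  classical
  obtain ⟨C, hC, h⟩ := Pool.Agent.V5helper64.LC.boxes (r₁ := r₁) (r₂ := r₂) p hr
  refine ⟨C, hC, fun w N M hM hMN => ?_⟩
  have hfin : {x | x ∈ Box w N ∧ Positive x ∧ ¬ Good p x}.Finite := by
    refine ((Fintype.piFinset fun i : Ind r₁ r₂ => Finset.Ioc (w i) (w i + N i)).finite_toSet).subset ?_
    rintro x ⟨hx, _⟩
    rw [Finset.mem_coe, Fintype.mem_piFinset]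
    intro i
    rw [Finset.mem_Ioc]
    exact hx i
  refine ⟨hfin, ?_⟩
  rw [Set.ncard_eq_toFinset_card _ hfin]
  refine h w N M hM hMN _ fun v hv => ?_
  rw [Set.Finite.mem_toFinset] at hv
  obtain ⟨h1, h2, h3⟩ := hv
  refine ⟨fun l => ?_, h2, ?_⟩
  · rw [Finset.mem_Ioc]
    exact h1 l
  · rwa [good_iff] at h3

theorem null_of_dim {ι : Type} [Fintype ι] [Nonempty ι] {E : Set (ι → ℝ)} {s : ℝ} (hs : s < Fintype.card ι)
    (h : dimH E ≤ ENNReal.ofReal s) : volume E = 0 := by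
  have hk : 0 < Fintype.card ι := Fintype.card_pos
  have h1 : dimH E < ((Fintype.card ι : NNReal) : ENNReal) := by
    refine lt_of_le_of_lt h ?_
    rw [ENNReal.coe_natCast, ← ENNReal.ofReal_natCast]
    exact (ENNReal.ofReal_lt_ofReal_iff (by exact_mod_cast hk)).2 hs
  have h2 := hausdorffMeasure_of_dimH_lt h1
  have h3 : (μH[(Fintype.card ι : ℝ)] : Measure (ι → ℝ)) = volume := hausdorffMeasure_pi_real
  rw [← h3]
  simpa using h2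

lemma card_ind (r₁ r₂ : ℕ) : Fintype.card (Ind r₁ r₂) = r₁ + 2 * r₂ := by
  simp only [Fintype.card_sum, Fintype.card_fin]
  ring

section windows

variable {r₁ r₂ : ℕ} {a τ : ℝ} {f : ℕ → ℝ → ℝ}

/-- one prime -/
theorem one_prime (hr : 1 ≤ r₁ + r₂) (hf : Starshaped a f) (hτ : 0 ≤ τ) (hE : ExpLe a f τ) (p : ℕ)
    [Fact p.Prime] {θ : ℝ} (hθ : θ < 1) : ∃ E : Set (Ind r₁ r₂ → ℝ),
      dimH E ≤ ENNReal.ofReal ((((r₁ + 2 * r₂ : ℕ) : ℝ) - 1 + τ) / (1 - θ)) ∧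
      ∀ u : Ind r₁ r₂ → ℝ, a < ‖u‖ → u ∉ E → ∀ c : ℝ, ∃ m₀ : ℕ, ∀ m : ℕ, m₀ ≤ m → ∀ z : Ind r₁ r₂ → ℤ,
        Positive z → (∀ i, |(z i : ℝ) - f m ‖u‖ / ‖u‖ * u i| ≤ c * (f m ‖u‖) ^ θ) → Good p z := by
  classical
  obtain ⟨C, hC, hbox⟩ := boxes p hr
  have hn1 : 1 ≤ r₁ + 2 * r₂ := by omega
  have hn : (0 : ℝ) ≤ ((r₁ + 2 * r₂ : ℕ) : ℝ) - 1 := by
    have : (1 : ℝ) ≤ ((r₁ + 2 * r₂ : ℕ) : ℝ) := by exact_mod_cast hn1
    linarith
  have hcount : ∀ ε : ℝ, 0 < ε → ∃ C : ℝ, ∀ H : ℕ, 1 ≤ H →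
      ({z : Ind r₁ r₂ → ℤ | (∀ i, |z i| ≤ (H : ℤ)) ∧ Positive z ∧ ¬ Good p z}.ncard : ℝ) ≤
        C * (H : ℝ) ^ (((r₁ + 2 * r₂ : ℕ) : ℝ) - 1 + ε) := by
    intro ε hε
    refine ⟨C * 3 ^ (r₁ + 2 * r₂), fun H hH => ?_⟩
    have hH1 : (1 : ℝ) ≤ H := by exact_mod_cast hH
    have hH0 : (0 : ℝ) < H := by linarith
    obtain ⟨hfin, hcard⟩ := hbox (fun _ => -(H : ℤ) - 1) (fun _ => 2 * H + 1) H hH (fun _ => by omega)
    have hsub : {z : Ind r₁ r₂ → ℤ | (∀ i, |z i| ≤ (H : ℤ)) ∧ Positive z ∧ ¬ Good p z} ⊆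
        {x | x ∈ Box (fun _ : Ind r₁ r₂ => -(H : ℤ) - 1) (fun _ => 2 * H + 1) ∧ Positive x ∧ ¬ Good p x} := by
      rintro z ⟨hz, hz2⟩
      refine ⟨fun i => ?_, hz2⟩
      have := abs_le.1 (hz i)
      push_cast
      constructor <;> linarith
    have h1 := Set.ncard_le_ncard hsub hfin
    have h2 : (({z : Ind r₁ r₂ → ℤ | (∀ i, |z i| ≤ (H : ℤ)) ∧ Positive z ∧ ¬ Good p z}.ncard : ℕ) : ℝ) ≤
        C * ((∏ _i : Ind r₁ r₂, ((2 * H + 1 : ℕ) : ℝ)) / H) := le_trans (by exact_mod_cast h1) hcard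
    refine h2.trans ?_
    rw [Finset.prod_const, Finset.card_univ, card_ind, mul_assoc]
    refine mul_le_mul_of_nonneg_left ?_ hC
    have h3 : ((2 * H + 1 : ℕ) : ℝ) ≤ 3 * H := by
      push_cast
      linarith
    have h4 : ((2 * H + 1 : ℕ) : ℝ) ^ (r₁ + 2 * r₂) ≤ (3 * (H : ℝ)) ^ (r₁ + 2 * r₂) :=
      pow_le_pow_left₀ (Nat.cast_nonneg _) h3 _
    rw [div_le_iff₀ hH0]
    have h5 : (H : ℝ) ^ (((r₁ + 2 * r₂ : ℕ) : ℝ) - 1 + ε) * H = (H : ℝ) ^ (((r₁ + 2 * r₂ : ℕ) : ℝ) + ε) := by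
      rw [← Real.rpow_add_one hH0.ne']
      congr 1
      ring
    have h6 : (H : ℝ) ^ (r₁ + 2 * r₂) ≤ (H : ℝ) ^ (((r₁ + 2 * r₂ : ℕ) : ℝ) + ε) := by
      rw [← Real.rpow_natCast]
      exact Real.rpow_le_rpow_of_exponent_le hH1 (by linarith)
    calc ((2 * H + 1 : ℕ) : ℝ) ^ (r₁ + 2 * r₂) ≤ 3 ^ (r₁ + 2 * r₂) * (H : ℝ) ^ (r₁ + 2 * r₂) := by
          rw [← mul_pow]
          exact h4
      _ ≤ 3 ^ (r₁ + 2 * r₂) * (H : ℝ) ^ (((r₁ + 2 * r₂ : ℕ) : ℝ) + ε) :=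
          mul_le_mul_of_nonneg_left h6 (by positivity)
      _ = 3 ^ (r₁ + 2 * r₂) * (H : ℝ) ^ (((r₁ + 2 * r₂ : ℕ) : ℝ) - 1 + ε) * H := by rw [mul_assoc, h5]
  obtain ⟨E, hE1, hE2⟩ := Pool.Agent.R482.ST.vec_prop (ι := Ind r₁ r₂)
    (fun z _ => Positive z ∧ ¬ Good p z) (fun z X Y _ h => h) hn hcount f a τ θ hf hτ hE hθ
  refine ⟨E, hE1, fun u hu huE c => ?_⟩
  obtain ⟨m₀, hm⟩ := hE2 u hu huE c
  refine ⟨m₀, fun m hm1 z hz hz2 => ?_⟩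
  by_contra hcon
  exact hm m hm1 z hz2 ⟨hz, hcon⟩

/-- all primes -/
theorem fixed (hr : 1 ≤ r₁ + r₂) (hf : Starshaped a f) (hτ : 0 ≤ τ) (hE : ExpLe a f τ) {θ : ℝ}
    (hθ : θ < 1) : ∃ E : Set (Ind r₁ r₂ → ℝ),
      dimH E ≤ ENNReal.ofReal ((((r₁ + 2 * r₂ : ℕ) : ℝ) - 1 + τ) / (1 - θ)) ∧
      ∀ u : Ind r₁ r₂ → ℝ, a < ‖u‖ → u ∉ E → ∀ c : ℝ, AllGood f u θ c := by
  have hch : ∀ p : {p : ℕ // p.Prime}, ∃ E : Set (Ind r₁ r₂ → ℝ),
      dimH E ≤ ENNReal.ofReal ((((r₁ + 2 * r₂ : ℕ) : ℝ) - 1 + τ) / (1 - θ)) ∧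
      ∀ u : Ind r₁ r₂ → ℝ, a < ‖u‖ → u ∉ E → ∀ c : ℝ, ∀ [Fact p.1.Prime], ∃ m₀ : ℕ, ∀ m : ℕ, m₀ ≤ m →
        ∀ z : Ind r₁ r₂ → ℤ, Positive z → (∀ i, |(z i : ℝ) - f m ‖u‖ / ‖u‖ * u i| ≤ c * (f m ‖u‖) ^ θ) →
          Good p.1 z := by
    intro p
    have hp : Fact p.1.Prime := ⟨p.2⟩
    obtain ⟨E, h1, h2⟩ := one_prime hr hf hτ hE p.1 hθ
    exact ⟨E, h1, fun u hu huE c _ => h2 u hu huE c⟩
  choose E hE1 hE2 using hch
  refine ⟨⋃ p, E p, ?_, fun u hu huE c p hp => ?_⟩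
  · rw [dimH_iUnion]
    exact iSup_le hE1
  · rw [Set.mem_iUnion] at huE
    push Not at huE
    exact hE2 ⟨p, hp.out⟩ u hu (huE _) c

lemma pos {u : Ind r₁ r₂ → ℝ} (hf : Starshaped a f) (hu : a < ‖u‖) (m : ℕ) : 0 < f m ‖u‖ :=
  (hf.2 m _ _ hu le_rfl).1

lemma tail {u : Ind r₁ r₂ → ℝ} (hf : Starshaped a f) (hτ : 0 ≤ τ) (hE : ExpLe a f τ) (hu : a < ‖u‖) :
    ∃ m₁ : ℕ, ∀ m, m₁ ≤ m → 1 ≤ f m ‖u‖ := by
  have hlim := (hE ‖u‖ hu (τ + 1) (by linarith)).tendsto_atTop_zero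
  obtain ⟨m₁, hm₁⟩ := Filter.eventually_atTop.1 (hlim.eventually_lt_const one_pos)
  refine ⟨m₁, fun m hm => ?_⟩
  by_contra hcon
  rw [not_le] at hcon
  have h2 := hm₁ m hm
  have h3 : (1 : ℝ) ≤ (f m ‖u‖) ^ (-(τ + 1)) :=
    Real.one_le_rpow_of_pos_of_le_one_of_nonpos (pos hf hu m) hcon.le (by linarith)
  linarith

lemma mono {u : Ind r₁ r₂ → ℝ} (hf : Starshaped a f) (hτ : 0 ≤ τ) (hE : ExpLe a f τ) (hu : a < ‖u‖)
    {θ ϑ c : ℝ} (hθ : θ ≤ ϑ) (h : AllGood f u ϑ (max c 0)) : AllGood f u θ c := by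
  intro p hp
  obtain ⟨m₀, hm⟩ := h p
  obtain ⟨m₁, hm₁⟩ := tail hf hτ hE hu
  refine ⟨max m₀ m₁, fun m hmm z hz hn => hm m ((le_max_left _ _).trans hmm) z hz fun i => ?_⟩
  have h1 := hm₁ m ((le_max_right _ _).trans hmm)
  have hpos := pos hf hu m
  refine (hn i).trans ?_
  calc c * (f m ‖u‖) ^ θ ≤ max c 0 * (f m ‖u‖) ^ θ :=
        mul_le_mul_of_nonneg_right (le_max_left _ _) (by positivity)
    _ ≤ max c 0 * (f m ‖u‖) ^ ϑ :=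
        mul_le_mul_of_nonneg_left (Real.rpow_le_rpow_of_exponent_le h1 hθ) (le_max_right _ _)

end windows

/-- **Theorem.** -/
theorem result :
    (∀ (p : ℕ) [Fact p.Prime] (r₁ r₂ : ℕ), 1 ≤ r₁ + r₂ → ∃ C : ℝ, ∀ (w : Ind r₁ r₂ → ℤ)
      (N : Ind r₁ r₂ → ℕ) (M : ℕ), 1 ≤ M → (∀ i, M ≤ N i) →
        ({x | x ∈ Box w N ∧ Positive x ∧ ¬ Good p x}.ncard : ℝ) ≤ C * (∏ i, (N i : ℝ)) / M) ∧
    (∀ (a : ℝ) (f : ℕ → ℝ → ℝ) (τ : ℝ), Starshaped a f → 0 ≤ τ → ExpLe a f τ →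
      ∀ r₁ r₂ : ℕ, 1 ≤ r₁ + r₂ →
        (∀ θ : ℝ, θ < 1 → ∃ E : Set (Ind r₁ r₂ → ℝ),
          dimH E ≤ ENNReal.ofReal ((((r₁ + 2 * r₂ : ℕ) : ℝ) - 1 + τ) / (1 - θ)) ∧
          ∀ u : Ind r₁ r₂ → ℝ, a < ‖u‖ → u ∉ E → ∀ c : ℝ, AllGood f u θ c) ∧
        ∀ᵐ u : Ind r₁ r₂ → ℝ, a < ‖u‖ → ∀ θ c : ℝ, θ < (1 - τ) / ((r₁ + 2 * r₂ : ℕ) : ℝ) →
          AllGood f u θ c) ∧
    (∀ (v : ℕ → ℝ) (τ : ℝ), (∀ m, 0 < v m) → (∀ t : ℝ, τ < t → Summable (fun m : ℕ => (v m) ^ (-t))) →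
      Starshaped 0 (fun m x => v m * x) ∧ ExpLe 0 (fun m x => v m * x) τ) ∧
    (∀ v : ℕ → ℝ, (∀ m, 1 ≤ v m) → (∀ t : ℝ, 0 < t → Summable fun m : ℕ => Real.exp (-(t * v m))) →
      Starshaped 1 (fun m x => x ^ (v m)) ∧ ExpLe 1 (fun m x => x ^ (v m)) 0) ∧
    (∀ (a : ℝ) (g : ℝ → ℝ), 0 ≤ a → (∀ x y : ℝ, a < x → x ≤ y → g x / x ≤ g y / y) → (∀ x : ℝ, a < x → x < g x) →
      Starshaped a (fun m x => g^[m] x) ∧ ExpLe a (fun m x => g^[m] x) 0) := by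
  classical
  refine ⟨?_, ?_, Pool.Agent.R482.ST.ex_mul, Pool.Agent.R482.ST.ex_pow, Pool.Agent.R482.ST.ex_orbit⟩
  · intro p _ r₁ r₂ hr
    obtain ⟨C, _, h⟩ := boxes p hr
    refine ⟨C, fun w N M hM hMN => ((h w N M hM hMN).2).trans (le_of_eq ?_)⟩
    rw [mul_div_assoc]
  · intro a f τ hf hτ hE r₁ r₂ hr
    refine ⟨fun θ hθ => fixed hr hf hτ hE hθ, ?_⟩
    have hn1 : 1 ≤ r₁ + 2 * r₂ := by omega
    have hne : Nonempty (Ind r₁ r₂) := by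
      rw [← Fintype.card_pos_iff, card_ind]
      omega
    have hn0 : (0 : ℝ) < ((r₁ + 2 * r₂ : ℕ) : ℝ) := by exact_mod_cast hn1
    have hn2 : (1 : ℝ) ≤ ((r₁ + 2 * r₂ : ℕ) : ℝ) := by exact_mod_cast hn1
    choose E hE1 hE2 using fun (θ : ℝ) (hθ : θ < 1) => fixed (r₁ := r₁) (r₂ := r₂) hr hf hτ hE hθ
    have hae : ∀ q : ℚ, ∀ᵐ u : Ind r₁ r₂ → ℝ, a < ‖u‖ →
        (q : ℝ) < (1 - τ) / ((r₁ + 2 * r₂ : ℕ) : ℝ) → ∀ c, AllGood f u q c := by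
      intro θ
      by_cases hθ : (θ : ℝ) < (1 - τ) / ((r₁ + 2 * r₂ : ℕ) : ℝ)
      · have h1 : (θ : ℝ) < 1 := by
          rw [lt_div_iff₀ hn0] at hθ
          by_contra hcon
          rw [not_lt] at hcon
          nlinarith
        rw [lt_div_iff₀ hn0] at hθ
        have h2 : (((r₁ + 2 * r₂ : ℕ) : ℝ) - 1 + τ) / (1 - θ) < Fintype.card (Ind r₁ r₂) := by
          rw [card_ind, div_lt_iff₀ (by linarith)]
          nlinarith
        have h3 : volume (E θ h1) = 0 := null_of_dim h2 (hE1 θ h1)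
        filter_upwards [compl_mem_ae_iff.2 h3] with u hu hau _ c
        exact hE2 θ h1 u hau hu c
      · exact Filter.Eventually.of_forall fun u _ h => absurd h hθ
    filter_upwards [ae_all_iff.2 hae] with u hu hau θ c hθ
    obtain ⟨ϑ, h1, h2⟩ := exists_rat_btwn hθ
    exact mono hf hτ hE hau h1.le (hu ϑ hau h2 (max c 0))

end Pool.Agent.Results.MP_5f2860_nt.ExceptionsInBoxes
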