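import Mathlib
import Pool.Agent.V5helper65.LG.Inf

/-!
# Leopoldt's conjecture for Galois closures and for fields with group `S₄`

Let `K` be a number field and `F` its Galois closure over `ℚ`, `p` a prime.

(1) Leopoldt's conjecture for `K` and `p` implies it for `F` and `p` in each of the following cases:
(a) `[K : ℚ] ≤ 4`, provided that in the case `[F : ℚ] = 24` the field `K` has a real and a complex
place; (b) `[K : ℚ]` is a prime and the Galois group of `F` is solvable; (c) the Galois group of `F`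
is a Frobenius group whose complement `Gal (F/K)` is abelian.

(2) Let `K` be a totally real cubic field, `α ∈ K \ ℚ` not totally positive with square norm `w²`, and
`F` the splitting field of `X⁴ - 2 s₁ X² - 8 w X + s₁² - 4 s₂` (the Galois closure of `K(√α)`; `s₁`,
`s₂` are the symmetric functions of `α`). Then `F` is totally complex with group `A₄` or `S₄`, and
Leopoldt's conjecture for `K` and `p` implies it for `F` and `p`. (The two dimensional representation
of the group is not accessible to the transcendence methods: the complex conjugation is trivial on it.)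

(3), (4) Explicit families with one parameter: for every `p` and all but finitely many values of the
parameter the Galois closure of the field satisfies Leopoldt's conjecture; the fields in (4) have the
group `S₄`.

(5), (6) For every finite set of primes there are infinitely many totally real fields with group `S₃`
and infinitely many totally complex fields with group `S₄` which satisfy Leopoldt's conjecture for all
the primes of the set.

Proof. By `W` denote the space of the `p`-adic relations between the units of `F`, a representation of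
the Galois group. (i) If an irreducible subrepresentation has at most one dimension of vectors fixed by
complex conjugation, its relations have algebraic coefficients up to a common factor, which contradicts
Brumer's theorem (the argument of Ax, Brumer, Emsalem, Kisilevsky and Wales). (ii) If it has nonzero
vectors fixed by a subgroup whose fixed field satisfies Leopoldt's conjecture we have a contradiction
to this conjecture. (iii) In the given groups all irreducible representations are of one of the two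
kinds. The fields `K` are those of the starting theorems `EverySignature` and `InfinitelyMany`.
-/

set_option autoImplicit false

namespace Pool.Agent.Results.MP_5f2860_nt.GaloisClosures

open Polynomial NumberField Module
open Pool.Agent.H637R2.Leo (Leopoldt)
open Pool.Agent.V5helper65.LG (leopoldt_closure_four leopoldt_closure_prime leopoldt_frobenius
  resolvent_main closure_family s4_family exists_s3 exists_s4 quartic fpoly)

/-- `F` (Galois over `ℚ`) is a Galois closure of `K`: it is generated by the conjugates of the image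
of `K`. -/
def GaloisClosure {K F : Type} [Field K] [NumberField K] [Field F] [NumberField F]
    (j : K →+* F) : Prop :=
  IsGalois ℚ F ∧ ∀ E : IntermediateField ℚ F, (∀ (g : F ≃ₐ[ℚ] F) (x : K), g (j x) ∈ E) → E = ⊤

/-- `g` belongs to `Gal (F/K)`. -/
def Fixes {K F : Type} [Field K] [NumberField K] [Field F] [NumberField F]
    (j : K →+* F) (g : F ≃ₐ[ℚ] F) : Prop :=
  ∀ x : K, g (j x) = j x

/-- The Galois group of `F` is a Frobenius group with kernel `N` and complement `Gal (F/K)`, which is
abelian. -/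
def FrobeniusAbelian {K F : Type} [Field K] [NumberField K] [Field F] [NumberField F]
    (j : K →+* F) : Prop :=
  ∃ N : Subgroup (F ≃ₐ[ℚ] F), N.Normal ∧ (∀ g ∈ N, Fixes j g → g = 1) ∧
    (∀ g : F ≃ₐ[ℚ] F, ∃ n ∈ N, ∃ h, Fixes j h ∧ g = n * h) ∧
    (∀ h, Fixes j h → h ≠ 1 → ∀ n ∈ N, h * n = n * h → n = 1) ∧
    (∀ g h, Fixes j g → Fixes j h → g * h = h * g)

/-- **Leopoldt's conjecture for Galois closures and for fields with group `S₄`.** -/
theorem result :
    -- (1) Galois closures
    (∀ (K F : Type) [Field K] [NumberField K] [Field F] [NumberField F] (j : K →+* F),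
      GaloisClosure j →
      (finrank ℚ K ≤ 4 ∧ (finrank ℚ F = 24 → (∃ τ : K →+* ℂ, ComplexEmbedding.IsReal τ) ∧
        ∃ τ : K →+* ℂ, ¬ ComplexEmbedding.IsReal τ)) ∨
      ((finrank ℚ K).Prime ∧ Group.IsSolvable (F ≃ₐ[ℚ] F)) ∨ FrobeniusAbelian j →
      ∀ (p : ℕ) [Fact p.Prime], Leopoldt K p → Leopoldt F p) ∧
    -- (2) totally complex `A₄` and `S₄` fields over totally real cubic fields
    (∀ (K F : Type) [Field K] [NumberField K] [Field F] [NumberField F], IsTotallyReal K →
      finrank ℚ K = 3 → ∀ (α : K) (s₁ s₂ w : ℚ), (∀ r : ℚ, α ≠ (r : K)) →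
      α ^ 3 - (s₁ : K) * α ^ 2 + (s₂ : K) * α - (w : K) ^ 2 = 0 →
      (∃ τ : K →+* ℂ, (τ α).re < 0) →
      (X ^ 4 - C (2 * s₁) * X ^ 2 - C (8 * w) * X + C (s₁ ^ 2 - 4 * s₂) :
        ℚ[X]).IsSplittingField ℚ F →
      IsTotallyComplex F ∧ (finrank ℚ F = 12 ∨ finrank ℚ F = 24) ∧
        (¬ IsGalois ℚ K → Nonempty ((F ≃ₐ[ℚ] F) ≃* Equiv.Perm (Fin 4))) ∧ Nonempty (K →+* F) ∧
        ∀ (p : ℕ) [Fact p.Prime], Leopoldt K p → Leopoldt F p) ∧
    -- (3) Galois closures in the families of degree at most four
    (∀ (p : ℕ) [Fact p.Prime] (r₁ r₂ : ℕ), 1 ≤ r₁ + r₂ → r₁ + 2 * r₂ ≤ 4 →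
      ∀ (a : Fin r₁ → ℤ) (b c : Fin r₂ → ℤ), Function.Injective a →
      Function.Injective (fun k => (b k, c k)) → (∀ k, 0 < c k) →
      ∃ S : Finset ℤ, ∀ t ∉ S, ∀ (F : Type) [Field F] [NumberField F],
        (((∏ i, (X - C (a i * t))) * (∏ k, ((X - C (b k * t)) ^ 2 + C (c k * t ^ 2))) - 1 :
          ℤ[X]).map (Int.castRingHom ℚ)).IsSplittingField ℚ F →
        (finrank ℚ F = 24 → r₁ = 2) → (r₂ = 0 → IsTotallyReal F) ∧ Leopoldt F p) ∧
    -- (4) an explicit family of totally complex fields with group `S₄`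
    (∀ (p : ℕ) [Fact p.Prime] (b c : ℤ), 0 < b → 0 < c → b ≠ c →
      ∃ S : Finset ℤ, ∀ t : ℤ, t ∉ S → 0 < t → ∀ (F : Type) [Field F] [NumberField F],
        (X ^ 4 + C (2 * (b + c) * t : ℚ) * X ^ 2 - 8 * X + C (((b - c) * t) ^ 2 : ℚ) :
          ℚ[X]).IsSplittingField ℚ F →
        IsTotallyComplex F ∧ Nonempty ((F ≃ₐ[ℚ] F) ≃* Equiv.Perm (Fin 4)) ∧ Leopoldt F p) ∧
    -- (5) infinitely many totally real fields with group `S₃`
    (∀ S : Finset ℕ, (∀ p ∈ S, p.Prime) → ∀ (ι : Type) [Fintype ι] (L : ι → Type)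
      [∀ i, Field (L i)] [∀ i, NumberField (L i)],
      ∃ (F : Type) (_ : Field F) (_ : NumberField F), IsTotallyReal F ∧ IsGalois ℚ F ∧
        Nonempty ((F ≃ₐ[ℚ] F) ≃* Equiv.Perm (Fin 3)) ∧ (∀ i, IsEmpty (F ≃+* L i)) ∧
        ∀ p ∈ S, ∀ [Fact p.Prime], Leopoldt F p) ∧
    -- (6) infinitely many totally complex fields with group `S₄`
    (∀ S : Finset ℕ, (∀ p ∈ S, p.Prime) → ∀ (ι : Type) [Fintype ι] (L : ι → Type)
      [∀ i, Field (L i)] [∀ i, NumberField (L i)],
      ∃ (F : Type) (_ : Field F) (_ : NumberField F), IsTotallyComplex F ∧ IsGalois ℚ F ∧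
        Nonempty ((F ≃ₐ[ℚ] F) ≃* Equiv.Perm (Fin 4)) ∧ (∀ i, IsEmpty (F ≃+* L i)) ∧
        ∀ p ∈ S, ∀ [Fact p.Prime], Leopoldt F p) := by
  refine ⟨?_, ?_, ?_, ?_, ?_, ?_⟩
  · intro K F _ _ _ _ j ⟨hG, hj⟩ h p _ hL
    haveI := hG
    rcases h with ⟨h4, h24⟩ | ⟨hpr, hsol⟩ | ⟨N, hN, h1, h2, h3, h4⟩
    · exact leopoldt_closure_four j hj h4 h24 hL
    · exact leopoldt_closure_prime j hj hpr hsol hL
    · exact leopoldt_frobenius j N hN h1 h2 (fun h hh => h3 h hh) (fun g hg h hh => h4 g h hg hh) hL
  · intro K F _ _ _ _ hreal hK α s₁ s₂ w hα heq hneg hF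
    haveI := hreal
    exact resolvent_main hK α hα s₁ s₂ w heq hneg hF
  · intro p _ r₁ r₂ h h4 a b c ha hbc hc
    obtain ⟨S, hS⟩ := closure_family p r₁ r₂ h h4 a b c ha hbc hc
    refine ⟨S, fun t ht F _ _ hF h24 => ?_⟩
    have h5 : (∏ i, (X - C (a i * t))) * (∏ k, ((X - C (b k * t)) ^ 2 + C (c k * t ^ 2))) - 1 =
        fpoly a b c t := rfl
    rw [h5] at hF
    exact @hS t ht F _ _ hF h24
  · intro p _ b c hb hc hbc
    obtain ⟨S, hS⟩ := s4_family p b c hb hc hbc
    refine ⟨S, fun t ht ht0 F _ _ hF => hS t ht ht0 F ?_⟩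
    have h1 : quartic (-((b + c) * t)) (b * c * t ^ 2) 1 =
        (X ^ 4 + C (2 * (b + c) * t : ℚ) * X ^ 2 - 8 * X + C (((b - c) * t) ^ 2 : ℚ) : ℚ[X]) := by
      unfold quartic
      have h2 : (2 * -((b + c) * t) : ℚ) = -(2 * (b + c) * t) := by ring
      have h3 : ((-((b + c) * t)) ^ 2 - 4 * (b * c * t ^ 2) : ℚ) = ((b - c) * t) ^ 2 := by ring
      have h4 : (C (8 * 1 : ℚ) : ℚ[X]) = 8 := by
        rw [mul_one]
        exact Polynomial.C_ofNat (R := ℚ) 8
      rw [h2, h3, h4, C_neg]
      ring
    rw [h1]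
    exact hF
  · intro S hS ι _ L _ _
    exact exists_s3 S hS ι L
  · intro S hS ι _ L _ _
    exact exists_s4 S hS ι L

end Pool.Agent.Results.MP_5f2860_nt.GaloisClosures
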