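import Pool.Agent.V5helper45.LS.Fam

/-!
# Leopoldt's conjecture for many primes at once and almost all fields of every signature

For integers `a_1, …, a_{r₁}`, `b_1, c_1, …, b_{r₂}, c_{r₂}`, `c_k > 0`, `r₁ + r₂ ≥ 1`, let

  `f = ∏ (Y - a_i) ∏ ((Y - b_k)² + c_k) - 1`   (`poly x`),

a polynomial of degree `n = r₁ + 2 r₂` which depends on `n` free parameters, and let `K = ℚ[Y]/(f)`.
`Regular x`: `f` is irreducible and `K` has exactly `r₁` real and `r₂` complex places.  `Good p x`: `x`
is regular and Leopoldt's conjecture holds for `K` and the prime `p`.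

(1) One prime, explicitly: let `p ≥ max (5, 2 n)` and consider a box of parameters whose sides are at
least `L ≥ p`, anywhere in `ℤ^n`.  The number of the regular parameters in the box for which
Leopoldt's conjecture at `p` fails is at most `16 m^4 / p² + m² p / L` times the number of all points
of the box, `m = r₁ + r₂`.

(2) Many primes at once: for every `ε > 0` there are `S₀` and `δ > 0` such that in EVERY box (with
`c_k > 0`) whose sides are at least `L ≥ S₀`, and for every `Y ≤ √(δ L)`, the proportion of the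
parameters for which the polynomial is not irreducible, or the signature is not `(r₁, r₂)`, or
Leopoldt's conjecture fails for at least one prime `p ≤ Y`, is at most `ε`.

So for every signature 100% of the members of the `n`-parameter family with parameters up to `N`
satisfy Leopoldt's conjecture for ALL primes `p ≤ N ^ (1/2 - ε)`, and this holds in short boxes at any
place.  The starting theorem `AlmostAllMembers` is the case of one fixed prime.

Proof.  For (1) one parameter (an `a_i` or a `c_k`) varies and the factor which contains it is left out: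
the other factors are `m - 1` units, and if they are pairwise coprime modulo `p` then every residue
class modulo `p` of the varying parameter contains at most `m - 1` exceptions.  (The matrices of
the logarithms are, up to high powers of `p`, polynomials in the parameter, and a suitable determinant
of them is modulo `p` a characteristic polynomial; the independence of the leading parts follows from
the partial fractions of the logarithmic derivatives.)  If no choice of the omitted factor is possible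
then two different pairs of factors have a common root modulo `p`, which happens with probability
`O (p ^ (-2))`.  The series over `p` converges, and the small primes are treated with the starting
library `Pool.Agent.N924.LP` (helper924), uniformly in the boxes.
-/

set_option autoImplicit false

namespace Pool.Agent.Results.MP_5f2860_nt.ManyPrimesAlmostAllMembers

open Polynomial NumberField
open Pool.Agent.H637R2.Leo (Leopoldt)

/-- The indices of the parameters `a_i`, `b_k`, `c_k`. -/
abbrev Ind (r₁ r₂ : ℕ) : Type := Fin r₁ ⊕ (Fin r₂ ⊕ Fin r₂)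

/-- The polynomial `∏ (Y - a_i) ∏ ((Y - b_k)² + c_k) - 1`. -/
noncomputable def poly {r₁ r₂ : ℕ} (x : Ind r₁ r₂ → ℤ) : ℤ[X] :=
  (∏ i, (X - C (x (Sum.inl i)))) *
    (∏ k, ((X - C (x (Sum.inr (Sum.inl k)))) ^ 2 + C (x (Sum.inr (Sum.inr k))))) - 1

/-- The polynomial is irreducible and defines fields with `r₁` real and `r₂` complex places. -/
def Regular {r₁ r₂ : ℕ} (x : Ind r₁ r₂ → ℤ) : Prop :=
  Irreducible (poly x) ∧ ∀ (K : Type) [Field K] [NumberField K] (θ : K), aeval θ (poly x) = 0 →
    IntermediateField.adjoin ℚ {θ} = ⊤ →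
    InfinitePlace.nrRealPlaces K = r₁ ∧ InfinitePlace.nrComplexPlaces K = r₂

/-- The polynomial is irreducible and defines fields with `r₁` real and `r₂` complex places for which
Leopoldt's conjecture holds at `p`. -/
def Good (p : ℕ) [Fact p.Prime] {r₁ r₂ : ℕ} (x : Ind r₁ r₂ → ℤ) : Prop :=
  Irreducible (poly x) ∧ ∀ (K : Type) [Field K] [NumberField K] (θ : K), aeval θ (poly x) = 0 →
    IntermediateField.adjoin ℚ {θ} = ⊤ →
    InfinitePlace.nrRealPlaces K = r₁ ∧ InfinitePlace.nrComplexPlaces K = r₂ ∧ Leopoldt K p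

/-- The box `lo u < x u ≤ hi u`. -/
def Box {r₁ r₂ : ℕ} (lo hi : Ind r₁ r₂ → ℤ) : Set (Ind r₁ r₂ → ℤ) :=
  {x | ∀ u, lo u < x u ∧ x u ≤ hi u}

theorem poly_eq {r₁ r₂ : ℕ} (x : Ind r₁ r₂ → ℤ) : poly x = Pool.Agent.N924.LP.pol x := by
  unfold poly Pool.Agent.N924.LP.pol
  rw [Fintype.prod_sum_type]
  rfl

theorem good_iff (p : ℕ) [Fact p.Prime] {r₁ r₂ : ℕ} (x : Ind r₁ r₂ → ℤ) :
    Good p x ↔ Pool.Agent.N924.LP.Holds p x := by
  unfold Good Pool.Agent.N924.LP.Holds
  rw [poly_eq]

theorem regular_iff {r₁ r₂ : ℕ} (x : Ind r₁ r₂ → ℤ) :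
    Regular x ↔ Pool.Agent.V5helper45.LS.Reg x := by
  unfold Regular Pool.Agent.V5helper45.LS.Reg
  rw [poly_eq]

theorem box_eq {r₁ r₂ : ℕ} (lo hi : Ind r₁ r₂ → ℤ) :
    Box lo hi = ↑(Pool.Agent.V5helper45.LS.bx lo hi) := by
  ext x
  rw [Finset.mem_coe, Pool.Agent.V5helper45.LS.mem_bx]
  rfl

/-- **Main result.** -/
theorem result (r₁ r₂ : ℕ) (hr : 1 ≤ r₁ + r₂) :
    (∀ (p : ℕ) [Fact p.Prime], 5 ≤ p → 2 * (r₁ + 2 * r₂) ≤ p → ∀ L : ℕ, p ≤ L →
      ∀ lo hi : Ind r₁ r₂ → ℤ, (∀ u, lo u + L ≤ hi u) →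
        ({x | x ∈ Box lo hi ∧ Regular x ∧ ¬ Good p x}.ncard : ℝ) ≤
          (16 * (r₁ + r₂) ^ 4 / p ^ 2 + (r₁ + r₂) ^ 2 * p / L) * (Box lo hi).ncard) ∧
    ∀ ε : ℝ, 0 < ε → ∃ (S₀ : ℕ) (δ : ℝ), 0 < δ ∧ ∀ L : ℕ, S₀ ≤ L → ∀ lo hi : Ind r₁ r₂ → ℤ,
      (∀ u, lo u + L ≤ hi u) → (∀ k, 0 ≤ lo (Sum.inr (Sum.inr k))) → ∀ Y : ℕ,
        (Y : ℝ) ^ 2 ≤ δ * L →
        ({x | x ∈ Box lo hi ∧ ¬ ∀ (p : ℕ) [Fact p.Prime], p ≤ Y → Good p x}.ncard : ℝ) ≤
          ε * (Box lo hi).ncard := by
  constructor
  · intro p hF hp5 hpn L hpL lo hi hside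
    have h1 := Pool.Agent.V5helper45.LS.prime_count p hF.out hp5 hpn hr lo hi L
      (by exact_mod_cast hpL) (fun u => by
        have h7 : ((lo u + L : ℤ) : ℝ) ≤ hi u := by exact_mod_cast hside u
        push_cast at h7
        linarith)
    have h2 : {x | x ∈ Box lo hi ∧ Regular x ∧ ¬ Good p x}.ncard ≤
        Pool.Agent.V5helper45.LS.cb lo hi (fun x => Pool.Agent.V5helper45.LS.Reg x ∧
          Pool.Agent.V5helper45.LS.FailsM x p) := by
      unfold Pool.Agent.V5helper45.LS.cb
      apply Set.ncard_le_ncard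
      · rintro x ⟨h3, h4, h5⟩
        rw [box_eq, Finset.mem_coe] at h3
        have h6 := (regular_iff x).1 h4
        refine ⟨h3, h6, Pool.Agent.V5helper45.LS.fails_of_not_holds p h6 ?_⟩
        rwa [← good_iff]
      · exact (Finset.finite_toSet (Pool.Agent.V5helper45.LS.bx lo hi)).subset fun x hx => hx.1
    have h3 : ((Box lo hi).ncard : ℝ) = (Pool.Agent.V5helper45.LS.bx lo hi).card := by
      rw [box_eq, Set.ncard_coe_finset]
    rw [h3]
    have h4 : ({x | x ∈ Box lo hi ∧ Regular x ∧ ¬ Good p x}.ncard : ℝ) ≤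
        Pool.Agent.V5helper45.LS.cb lo hi (fun x => Pool.Agent.V5helper45.LS.Reg x ∧
          Pool.Agent.V5helper45.LS.FailsM x p) := by exact_mod_cast h2
    refine h4.trans ?_
    push_cast at h1
    exact h1
  · intro ε hε
    obtain ⟨S₀, δ, hδ, h⟩ := Pool.Agent.V5helper45.LS.many_primes (r₁ := r₁) (r₂ := r₂) hr ε hε
    refine ⟨S₀, δ, hδ, fun L hL lo hi hside hpos Y hY => ?_⟩
    have h1 := h L hL lo hi hside hpos Y hY
    have h2 : {x | x ∈ Box lo hi ∧ ¬ ∀ (p : ℕ) [Fact p.Prime], p ≤ Y → Good p x}.ncard ≤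
        Pool.Agent.V5helper45.LS.cb lo hi
          (fun x => ∃ p ≤ Y, ∃ _ : Fact p.Prime, ¬ Pool.Agent.N924.LP.Holds p x) := by
      unfold Pool.Agent.V5helper45.LS.cb
      apply Set.ncard_le_ncard
      · rintro x ⟨h3, h4⟩
        rw [box_eq, Finset.mem_coe] at h3
        refine ⟨h3, ?_⟩
        by_contra hcon
        apply h4
        intro p hF hpY
        rw [good_iff]
        by_contra hno
        exact hcon ⟨p, hpY, hF, hno⟩
      · exact (Finset.finite_toSet (Pool.Agent.V5helper45.LS.bx lo hi)).subset fun x hx => hx.1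
    have h3 : ((Box lo hi).ncard : ℝ) = (Pool.Agent.V5helper45.LS.bx lo hi).card := by
      rw [box_eq, Set.ncard_coe_finset]
    rw [h3]
    refine le_trans ?_ h1
    exact_mod_cast h2

end Pool.Agent.Results.MP_5f2860_nt.ManyPrimesAlmostAllMembers
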